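import Pool.Agent.Q211.WR.Main

/-!
# Redundant sentences and generic models of algebraic theories

The definitions are in `Pool/Agent/Q211/WR/Def.lean` and `Pool/Agent/Q211/WR/Main.lean`:
`Sig` (signatures with function symbols only), `Fm S n` (formulas with equality and small
disjunctions, free variables `x_0, …, x_{n-1}`), `Prf T Γ φ` (derivability in infinitary
intuitionistic logic), `Geo` (geometric formulas), `Algebraic`, `Redundant`, `FinPres` (finitely
presented models), `Force` and `GenericTrue` (Kripke–Joyal semantics of the generic model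
`A ↦ A` in the classifying topos of functors from the finitely presented models of `T` to sets),
`dec` (`∀ x y, x = y ∨ ¬ x = y`), `triv` (`∀ x y, x = y`), `one` (`∃ x, ∀ y, x = y`).

The answer to the question is negative: decidability of equality is true in all set models, so it is
redundant (a geometric implication which holds in all finitely presented models is derivable), but it
is not true in the generic model as soon as `T` does not prove `x = y`. In fact all redundant
sentences are true in the generic model only if `T` is the theory of the one-element algebra.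
-/

set_option autoImplicit false

namespace Pool.Agent.Results.MP_c38b8d_lc.DecidableEquality

open Q211.WR

/-- For every algebraic theory `T`:
(1) a geometric implication is true in the generic model iff it is derivable from `T`;
(2) sentences which are true in the generic model are redundant;
(3) all redundant sentences are true in the generic model iff `T` proves `∃ x, ∀ y, x = y`;
(4) if `T` does not prove `∀ x y, x = y` then the sentence `∀ x y, x = y ∨ ¬ x = y` is redundant and
not true in the generic model;
(5) if some model of `T` with at least two elements has a one-element submodel, then this sentence and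
its negation are both redundant, and the negation is true in the generic model.
The theory without symbols and axioms is an example for (4) and (5). -/
theorem result :
    (∀ (S : Sig) (T : Set (Fm S 0)), Algebraic T →
      (∀ (n : ℕ) (φ ψ : Fm S n), Geo φ → Geo ψ →
        (GenericTrue T (closure n (.imp φ ψ)) ↔ Prf T ∅ (closure n (.imp φ ψ)))) ∧
      (∀ α : Fm S 0, GenericTrue T α → Redundant T α) ∧
      ((∀ α : Fm S 0, Redundant T α → GenericTrue T α) ↔ Prf T ∅ (one S)) ∧
      (¬ Prf T ∅ (triv S) → Redundant T (dec S) ∧ ¬ GenericTrue T (dec S)) ∧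
      ((∃ B : Alg S, Models B T ∧ ∃ p q : B.car, p ≠ q ∧ ∀ f, B.op f (fun _ => p) = p) →
        Redundant T (dec S) ∧ Redundant T (neg (dec S)) ∧ GenericTrue T (neg (dec S)))) ∧
    ∃ (S : Sig) (T : Set (Fm S 0)), Algebraic T ∧ T = ∅ ∧ IsEmpty S.Fn ∧
      Redundant T (dec S) ∧ ¬ GenericTrue T (dec S) ∧
      Redundant T (neg (dec S)) ∧ GenericTrue T (neg (dec S)) := by
  have main : ∀ (S : Sig) (T : Set (Fm S 0)), Algebraic T →
      (∀ (n : ℕ) (φ ψ : Fm S n), Geo φ → Geo ψ →
        (GenericTrue T (closure n (.imp φ ψ)) ↔ Prf T ∅ (closure n (.imp φ ψ)))) ∧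
      (∀ α : Fm S 0, GenericTrue T α → Redundant T α) ∧
      ((∀ α : Fm S 0, Redundant T α → GenericTrue T α) ↔ Prf T ∅ (one S)) ∧
      (¬ Prf T ∅ (triv S) → Redundant T (dec S) ∧ ¬ GenericTrue T (dec S)) ∧
      ((∃ B : Alg S, Models B T ∧ ∃ p q : B.car, p ≠ q ∧ ∀ f, B.op f (fun _ => p) = p) →
        Redundant T (dec S) ∧ Redundant T (neg (dec S)) ∧ GenericTrue T (neg (dec S))) := by
    intro S T hT
    refine ⟨fun n φ ψ hφ hψ => generic_geo hT hφ hψ, fun α h => redundant_of_generic hT h,
      ⟨one_of_all hT, all_of_one hT⟩, fun h => ⟨redundant_dec hT, not_generic_dec hT h⟩, ?_⟩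
    rintro ⟨B, hB, p, q, hpq, hp⟩
    have h1 := generic_neg_dec hT hB hpq hp
    exact ⟨redundant_dec hT, redundant_of_generic hT h1, h1⟩
  refine ⟨main, ⟨Empty, fun _ => 0⟩, ∅, ?_, rfl, inferInstanceAs (IsEmpty Empty), ?_⟩
  · intro φ hφ
    exact hφ.elim
  · have hT : Algebraic (∅ : Set (Fm ⟨Empty, fun _ => 0⟩ 0)) := fun φ hφ => hφ.elim
    obtain ⟨-, -, -, h4, h5⟩ := main ⟨Empty, fun _ => 0⟩ ∅ hT
    have h6 := h5 ⟨⟨Bool, fun f => f.elim⟩, fun φ hφ => hφ.elim, true, false, by simp,
      fun f => f.elim⟩
    refine ⟨h6.1, (h4 ?_).2, h6.2.1, h6.2.2⟩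
    intro h7
    let B : Alg ⟨Empty, fun _ => 0⟩ := ⟨Bool, fun f => Empty.elim f⟩
    have hB : Models B ∅ := fun φ hφ => hφ.elim
    have h8 := sound hB h7 (fun i => i.elim0) (by simp)
    have h9 : true = false := h8 true false
    exact Bool.noConfusion h9

end Pool.Agent.Results.MP_c38b8d_lc.DecidableEquality
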